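import Pool.Agent.H6.NE.Stm3

/-!
# NE: part GRC, commutator calculus
-/

set_option autoImplicit false

open Finset

namespace H31.NE

open H6.NE

variable {Γ : Type} [Group Γ]

theorem lc_succ (n : ℕ) : lc Γ (n + 1) = ⁅lc Γ n, (⊤ : Subgroup Γ)⁆ := by
  rw [Subgroup.commutator_def]
  show Subgroup.closure {x | ∃ a ∈ lc Γ n, ∃ g : Γ, x = cm a g} = _
  congr 1
  ext x
  constructor
  · rintro ⟨a, ha, g, rfl⟩
    exact ⟨a, ha, g, Subgroup.mem_top g, rfl⟩
  · rintro ⟨a, ha, g, _, rfl⟩
    exact ⟨a, ha, g, rfl⟩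

instance lc_normal (n : ℕ) : (lc Γ n).Normal := by
  induction n with
  | zero => exact inferInstanceAs (⊤ : Subgroup Γ).Normal
  | succ n ih =>
    rw [lc_succ]
    exact Subgroup.commutator_normal _ _

theorem lc_anti_succ (n : ℕ) : lc Γ (n + 1) ≤ lc Γ n := by
  rw [lc_succ]
  exact Subgroup.commutator_le_left _ _

theorem lc_anti {m n : ℕ} (h : m ≤ n) : lc Γ n ≤ lc Γ m := by
  induction n, h using Nat.le_induction with
  | base => exact le_refl _
  | succ n _ ih => exact le_trans (lc_anti_succ n) ih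

/-- three subgroups lemma -/
theorem three (H₁ H₂ H₃ N : Subgroup Γ) [N.Normal] (h1 : ⁅⁅H₂, H₃⁆, H₁⁆ ≤ N)
    (h2 : ⁅⁅H₃, H₁⁆, H₂⁆ ≤ N) : ⁅⁅H₁, H₂⁆, H₃⁆ ≤ N := by
  have key : ∀ A B C : Subgroup Γ, (⁅⁅A, B⁆, C⁆ ≤ N ↔
      ⁅⁅A.map (QuotientGroup.mk' N), B.map (QuotientGroup.mk' N)⁆,
        C.map (QuotientGroup.mk' N)⁆ = ⊥) := by
    intro A B C
    rw [← Subgroup.map_commutator, ← Subgroup.map_commutator, Subgroup.map_eq_bot_iff,
      QuotientGroup.ker_mk']
  rw [key] at h1 h2 ⊢
  exact Subgroup.commutator_commutator_eq_bot_of_rotate h1 h2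

theorem lc_comm (j : ℕ) : ∀ i : ℕ, ⁅lc Γ i, lc Γ j⁆ ≤ lc Γ (i + j + 1) := by
  induction j with
  | zero =>
    intro i
    rw [lc_succ]
    exact Subgroup.commutator_mono (le_refl _) le_top
  | succ j ih =>
    intro i
    rw [Subgroup.commutator_comm, lc_succ j]
    apply three
    · -- [[⊤, lc i], lc j]
      have h1 : ⁅(⊤ : Subgroup Γ), lc Γ i⁆ ≤ lc Γ (i + 1) := by
        rw [Subgroup.commutator_comm, lc_succ]
      refine le_trans (Subgroup.commutator_mono h1 (le_refl _)) ?_
      have h2 := ih (i + 1)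
      have e : i + 1 + j + 1 = i + (j + 1) + 1 := by ring
      rw [e] at h2
      exact h2
    · -- [[lc i, lc j], ⊤]
      have h2 := ih i
      refine le_trans (Subgroup.commutator_mono h2 (le_refl _)) ?_
      rw [← lc_succ]
      have e : i + j + 1 + 1 = i + (j + 1) + 1 := by ring
      rw [e]

theorem cm_mem {i j : ℕ} {a b : Γ} (ha : a ∈ lc Γ i) (hb : b ∈ lc Γ j) :
    cm a b ∈ lc Γ (i + j + 1) :=
  lc_comm j i (Subgroup.commutator_mem_commutator ha hb)

/-- elements commute modulo `lc n` -/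
theorem mk_comm {n i j : ℕ} {a b : Γ} (ha : a ∈ lc Γ i) (hb : b ∈ lc Γ j) (h : n ≤ i + j + 1) :
    (a : Γ ⧸ lc Γ n) * b = b * a := by
  have h1 : cm a b ∈ lc Γ n := lc_anti h (cm_mem ha hb)
  have h2 : ((cm a b : Γ) : Γ ⧸ lc Γ n) = 1 := (QuotientGroup.eq_one_iff _).mpr h1
  unfold cm at h2
  rw [QuotientGroup.mk_mul, QuotientGroup.mk_mul, QuotientGroup.mk_mul, QuotientGroup.mk_inv,
    QuotientGroup.mk_inv] at h2
  have h3 := mul_inv_eq_one.mp h2
  exact mul_inv_eq_iff_eq_mul.mp h3

theorem mk_cm {n : ℕ} (a b : Γ) : ((cm a b : Γ) : Γ ⧸ lc Γ n) = cm (a : Γ ⧸ lc Γ n) b := by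
  unfold cm
  rw [QuotientGroup.mk_mul, QuotientGroup.mk_mul, QuotientGroup.mk_mul, QuotientGroup.mk_inv,
    QuotientGroup.mk_inv]

/-- `Q`-level Jacobi identity -/
theorem jacobi {Q : Type} [Group Q] (g b f : Q)
    (hw : ∀ t, cm g (cm b f) * t = t * cm g (cm b f))
    (hv : ∀ t, cm (cm g f) b * t = t * cm (cm g f) b)
    (hu : ∀ t, cm (cm g b) f * t = t * cm (cm g b) f)
    (hxy : cm g b * cm g f = cm g f * cm g b) (hxz : cm g b * cm b f = cm b f * cm g b)
    (hyz : cm g f * cm b f = cm b f * cm g f) :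
    cm (cm g b) f * (cm (cm g f) b)⁻¹ = cm g (cm b f) := by
  have e1 : g * b = cm g b * b * g := by unfold cm; group
  have e2 : g * f = cm g f * f * g := by unfold cm; group
  have e3 : b * f = cm b f * f * b := by unfold cm; group
  have e4 : g * cm b f = cm g (cm b f) * cm b f * g := by
    generalize cm b f = z
    unfold cm; group
  have e5 : cm g f * b = cm (cm g f) b * b * cm g f := by
    generalize cm g f = y
    unfold cm; group
  have e6 : cm g b * f = cm (cm g b) f * f * cm g b := by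
    generalize cm g b = x
    unfold cm; group
  generalize hx : cm g b = x at *
  generalize hy : cm g f = y at *
  generalize hz : cm b f = z at *
  generalize hu' : cm x f = u at *
  generalize hv' : cm y b = v at *
  generalize hw' : cm g z = w at *
  -- `v x b y f = x v b y f = x y b f ...`
  have k1 : g * (b * f) = x * (b * y) * f * g := by
    calc g * (b * f) = (g * b) * f := by group
      _ = x * b * (g * f) := by rw [e1]; group
      _ = x * (b * y) * f * g := by rw [e2]; group
  have k2 : g * (b * f) = w * z * y * (f * x) * b * g := by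
    calc g * (b * f) = (g * z) * f * b := by rw [e3]; group
      _ = w * z * (g * f) * b := by rw [e4]; group
      _ = w * z * y * f * (g * b) := by rw [e2]; group
      _ = w * z * y * (f * x) * b * g := by rw [e1]; group
  have k3 : v * (x * (b * y) * f) = x * y * z * f * b := by
    calc v * (x * (b * y) * f) = (v * x) * b * y * f := by group
      _ = x * (v * b * y) * f := by rw [hv x]; group
      _ = x * (y * b) * f := by rw [e5]
      _ = x * y * (b * f) := by group
      _ = x * y * z * f * b := by rw [e3]; group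
  have k4 : u * (w * z * y * (f * x) * b) = w * z * y * x * f * b := by
    calc u * (w * z * y * (f * x) * b) = (u * (w * z * y)) * (f * x) * b := by group
      _ = w * z * y * (u * f * x) * b := by rw [hu (w * z * y)]; group
      _ = w * z * y * (x * f) * b := by rw [e6]
      _ = w * z * y * x * f * b := by group
  have k5 : x * (b * y) * f = w * z * y * (f * x) * b := mul_right_cancel (k1.symm.trans k2)
  have k6 : x * y * z = z * y * x := by
    calc x * y * z = y * (x * z) := by rw [hxy]; group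
      _ = (y * z) * x := by rw [hxz]; group
      _ = z * y * x := by rw [hyz]
  -- combine
  have k7 : u * (x * y * z * f * b) = v * (w * (z * y * x * f * b)) := by
    calc u * (x * y * z * f * b) = u * (v * (x * (b * y) * f)) := by rw [k3]
      _ = v * (u * (x * (b * y) * f)) := by
        rw [← mul_assoc, hu v, mul_assoc]
      _ = v * (u * (w * z * y * (f * x) * b)) := by rw [k5]
      _ = v * (w * (z * y * x * f * b)) := by rw [k4]; group
  have k8 : u = v * w := by
    have h1 : u * (x * y * z * f * b) = (v * w) * (x * y * z * f * b) := by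
      rw [k7, k6]
      group
    exact mul_right_cancel h1
  rw [k8, ← hw v]
  group

theorem t_GRC : S_GRC := by
  intro Γ _
  refine ⟨fun i j a ha b hb => cm_mem ha hb, ?_, ?_, ?_⟩
  · intro i j a ha a' ha' b hb
    rw [← QuotientGroup.eq]
    rw [QuotientGroup.mk_mul, mk_cm, mk_cm, mk_cm, QuotientGroup.mk_mul]
    have h1 : ∀ t : Γ ⧸ lc Γ (i + j + 2), cm (a' : Γ ⧸ lc Γ (i + j + 2)) b * t =
        t * cm (a' : Γ ⧸ lc Γ (i + j + 2)) b := by
      intro t
      obtain ⟨t, rfl⟩ := QuotientGroup.mk_surjective t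
      rw [← mk_cm]
      exact mk_comm (j := 0) (cm_mem ha' hb) (Subgroup.mem_top t) (by omega)
    generalize (a : Γ ⧸ lc Γ (i + j + 2)) = A at *
    generalize (a' : Γ ⧸ lc Γ (i + j + 2)) = A' at *
    generalize (b : Γ ⧸ lc Γ (i + j + 2)) = B at *
    have h2 : cm (A * A') B = A * cm A' B * A⁻¹ * cm A B := by unfold cm; group
    rw [h2, ← h1 A, ← h1 (cm A B)]
    group
  · intro i j a ha b hb b' hb'
    rw [← QuotientGroup.eq]
    rw [QuotientGroup.mk_mul, mk_cm, mk_cm, mk_cm, QuotientGroup.mk_mul]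
    have h1 : ∀ t : Γ ⧸ lc Γ (i + j + 2), cm (a : Γ ⧸ lc Γ (i + j + 2)) b' * t =
        t * cm (a : Γ ⧸ lc Γ (i + j + 2)) b' := by
      intro t
      obtain ⟨t, rfl⟩ := QuotientGroup.mk_surjective t
      rw [← mk_cm]
      exact mk_comm (j := 0) (cm_mem ha hb') (Subgroup.mem_top t) (by omega)
    generalize (a : Γ ⧸ lc Γ (i + j + 2)) = A at *
    generalize (b : Γ ⧸ lc Γ (i + j + 2)) = B at *
    generalize (b' : Γ ⧸ lc Γ (i + j + 2)) = B' at *
    have h2 : cm A (B * B') = cm A B * (B * cm A B' * B⁻¹) := by unfold cm; group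
    rw [h2, ← h1 B]
    group
  · intro i j g hg b hb f
    rw [← QuotientGroup.eq]
    rw [QuotientGroup.mk_mul, QuotientGroup.mk_inv, mk_cm, mk_cm, mk_cm, mk_cm, mk_cm, mk_cm]
    have hf : f ∈ lc Γ 0 := Subgroup.mem_top f
    have hx := cm_mem hg hb
    have hy := cm_mem hg hf
    have hz := cm_mem hb hf
    apply jacobi
    · intro t
      obtain ⟨t, rfl⟩ := QuotientGroup.mk_surjective t
      rw [← mk_cm, ← mk_cm]
      exact mk_comm (j := 0) (cm_mem hg hz) (Subgroup.mem_top t) (by omega)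
    · intro t
      obtain ⟨t, rfl⟩ := QuotientGroup.mk_surjective t
      rw [← mk_cm, ← mk_cm]
      exact mk_comm (j := 0) (cm_mem hy hb) (Subgroup.mem_top t) (by omega)
    · intro t
      obtain ⟨t, rfl⟩ := QuotientGroup.mk_surjective t
      rw [← mk_cm, ← mk_cm]
      exact mk_comm (j := 0) (cm_mem hx hf) (Subgroup.mem_top t) (by omega)
    · rw [← mk_cm, ← mk_cm]
      exact mk_comm hx hy (by omega)
    · rw [← mk_cm, ← mk_cm]
      exact mk_comm hx hz (by omega)
    · rw [← mk_cm, ← mk_cm]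
      exact mk_comm hy hz (by omega)

end H31.NE
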